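import Mathlib
import Pool.Agent.H24.MR.InterfaceCH

/-!
`StatementCHa` (from `StatementME`) and `StatementCHb`: modules of the project T1 on
`MP_c59857_nt`.
-/

set_option autoImplicit false

open Finset Filter

namespace Pool.Agent.H82.MR

open Pool.Agent.H24.MR

/-! ### [CHa] -/

lemma iter_me {C : ℕ} {c : ℝ} (hC : 2 ≤ C) {q : ℕ} {x₀ : ℝ}
    (h : ∀ x : ℝ, x₀ ≤ x → c / (Nat.totient q : ℝ) ≤
      ∑ p ∈ (Finset.Ioc ⌊x⌋₊ ⌊x ^ C⌋₊).filter (fun p => p.Prime ∧ p ≡ 1 [MOD q]), (1 : ℝ) / p)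
    {x : ℝ} (hx₀ : x₀ ≤ x) (hx1 : 1 ≤ x) : ∀ m : ℕ, (m : ℝ) * (c / (Nat.totient q : ℝ)) ≤
      ∑ p ∈ (Finset.Ioc ⌊x⌋₊ ⌊x ^ (C ^ m)⌋₊).filter (fun p => p.Prime ∧ p ≡ 1 [MOD q]),
        (1 : ℝ) / p := by
  intro m
  induction m with
  | zero => simp
  | succ m ih =>
    have h1 : x ≤ x ^ (C ^ m) := le_self_pow₀ hx1 (by positivity)
    have h2 : x ^ (C ^ m) ≤ x ^ (C ^ (m + 1)) :=
      pow_le_pow_right₀ hx1 (Nat.pow_le_pow_right (by omega) (by omega))
    have h3 : (x ^ (C ^ m)) ^ C = x ^ (C ^ (m + 1)) := by rw [← pow_mul, ← pow_succ]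
    have h4 := h (x ^ (C ^ m)) (hx₀.trans h1)
    rw [h3] at h4
    have h5 : (Finset.Ioc ⌊x⌋₊ ⌊x ^ (C ^ (m + 1))⌋₊).filter (fun p => p.Prime ∧ p ≡ 1 [MOD q])
        = (Finset.Ioc ⌊x⌋₊ ⌊x ^ (C ^ m)⌋₊).filter (fun p => p.Prime ∧ p ≡ 1 [MOD q])
          ∪ (Finset.Ioc ⌊x ^ (C ^ m)⌋₊ ⌊x ^ (C ^ (m + 1))⌋₊).filter
            (fun p => p.Prime ∧ p ≡ 1 [MOD q]) := by
      rw [← Finset.filter_union, Finset.Ioc_union_Ioc_eq_Ioc (Nat.floor_mono h1)
        (Nat.floor_mono h2)]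
    have h6 : Disjoint ((Finset.Ioc ⌊x⌋₊ ⌊x ^ (C ^ m)⌋₊).filter
          (fun p => p.Prime ∧ p ≡ 1 [MOD q]))
        ((Finset.Ioc ⌊x ^ (C ^ m)⌋₊ ⌊x ^ (C ^ (m + 1))⌋₊).filter
            (fun p => p.Prime ∧ p ≡ 1 [MOD q])) := by
      apply Finset.disjoint_filter_filter
      rw [Finset.disjoint_left]
      intro a ha hb
      rw [Finset.mem_Ioc] at ha hb
      omega
    rw [h5, Finset.sum_union h6]
    push_cast
    linarith

theorem cha (hme : StatementME) : StatementCHa := by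
  intro W K hW
  obtain ⟨C, c, hC, hc, h⟩ := hme
  obtain ⟨x₀, hx₀⟩ := h W hW
  have hφ : (0 : ℝ) < (W.totient : ℝ) := by exact_mod_cast Nat.totient_pos.mpr hW
  set Kp : ℕ := ⌈(K : ℝ) * W.totient / c⌉₊ with hKp
  have hKp' : (K : ℝ) ≤ Kp * (c / W.totient) := by
    have h1 : (K : ℝ) * W.totient / c ≤ Kp := Nat.le_ceil _
    rw [div_le_iff₀ hc] at h1
    rw [mul_div_assoc', le_div_iff₀ hφ]
    exact h1
  refine ⟨C ^ Kp, max 1 ⌈x₀⌉₊, Nat.one_le_pow _ _ (by omega), fun B hB j => ?_⟩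
  have hB1 : 1 ≤ B := (le_max_left _ _).trans hB
  have hB2 : x₀ ≤ B := (Nat.le_ceil x₀).trans (by exact_mod_cast (le_max_right _ _).trans hB)
  have hxs : B ≤ xs B j := by
    unfold xs
    exact Nat.le_self_pow (by positivity) B
  have hx : x₀ ≤ Real.exp (xs B j) := by
    have h1 : ((xs B j : ℕ) : ℝ) + 1 ≤ Real.exp (xs B j) := Real.add_one_le_exp _
    have h2 : (B : ℝ) ≤ xs B j := by exact_mod_cast hxs
    linarith
  have hx1 : 1 ≤ Real.exp (xs B j) := Real.one_le_exp (by positivity)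
  have key := iter_me hC hx₀ hx hx1 (Kp * 2 ^ j)
  have e1 : Real.exp (xs B j) ^ (C ^ (Kp * 2 ^ j)) = Real.exp (ys (C ^ Kp) B j) := by
    rw [← Real.exp_nat_mul]
    congr 1
    unfold xs ys
    push_cast
    rw [mul_pow, pow_mul]
  rw [e1] at key
  refine le_trans ?_ key
  push_cast
  calc (K : ℝ) * 2 ^ j ≤ (Kp * (c / W.totient)) * 2 ^ j := by gcongr
    _ = _ := by ring

/-! ### [CHb] -/

lemma sum_inv_le {a : ℕ} (ha : 1 ≤ a) : ∀ b : ℕ, a ≤ b →
    ∑ n ∈ Finset.Icc a b, (1 : ℝ) / n ≤ 1 / a + (Real.log b - Real.log a) := by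
  intro b hb
  induction b, hb using Nat.le_induction with
  | base => simp
  | succ b hb ih =>
    rw [← Finset.insert_Icc_right_eq_Icc_add_one (by omega), Finset.sum_insert (by simp)]
    have hb0 : (0 : ℝ) < b := by exact_mod_cast (by omega : 0 < b)
    have h1 : 1 - (((b : ℝ) + 1) / b)⁻¹ ≤ Real.log (((b : ℝ) + 1) / b) :=
      Real.one_sub_inv_le_log_of_pos (by positivity)
    rw [Real.log_div (by positivity) hb0.ne'] at h1
    have h2 : 1 - (((b : ℝ) + 1) / b)⁻¹ = 1 / ((b : ℝ) + 1) := by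
      field_simp
      ring
    rw [h2] at h1
    push_cast
    linarith

theorem chb : StatementCHb := by
  intro W A B K j hA hB hK
  set H := Hs K j with hH
  have hH2 : 2 ≤ H := by
    rw [hH, Hs]
    exact hK.trans (Nat.le_mul_of_pos_right _ (by positivity))
  have hHr : (2 : ℝ) ≤ H := by exact_mod_cast hH2
  have hH0 : (0 : ℝ) < H := by linarith
  have hxs1 : 1 ≤ xs B j := Nat.one_le_pow _ _ hB
  -- bounds on elements
  have hp : ∀ p ∈ Ps W A B j, 0 < (p : ℝ) ∧ (xs B j : ℝ) < Real.log p ∧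
      Real.log p ≤ ys A B j := by
    intro p hp
    rw [Ps, Finset.mem_filter, Finset.mem_Ioc] at hp
    obtain ⟨⟨h1, h2⟩, h3, h4⟩ := hp
    have h5 : (0 : ℝ) < p := by exact_mod_cast h3.pos
    refine ⟨h5, ?_, ?_⟩
    · rw [Real.lt_log_iff_exp_lt h5]
      have : (⌊Real.exp (xs B j)⌋₊ : ℝ) + 1 ≤ p := by exact_mod_cast h1
      exact lt_of_lt_of_le (Nat.lt_floor_add_one _) this
    · rw [Real.log_le_iff_le_exp h5]
      exact le_trans (by exact_mod_cast h2) (Nat.floor_le (Real.exp_pos _).le)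
  have hcell : ∀ p ∈ Ps W A B j, H * xs B j ≤ cell H p ∧ cell H p ≤ H * ys A B j := by
    intro p hpp
    obtain ⟨h1, h2, h3⟩ := hp p hpp
    unfold cell
    constructor
    · apply Nat.le_floor
      push_cast
      gcongr
    · have : (H : ℝ) * Real.log p ≤ ((H * ys A B j : ℕ) : ℝ) := by
        push_cast
        gcongr
      calc ⌊(H : ℝ) * Real.log p⌋₊ ≤ ⌊((H * ys A B j : ℕ) : ℝ)⌋₊ := Nat.floor_mono this
        _ = _ := Nat.floor_natCast _
  refine ⟨?_, ?_⟩
  · calc ((Ps W A B j).image (cell H)).card ≤ (Finset.range (H * ys A B j + 1)).card := by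
          apply Finset.card_le_card
          intro v hv
          obtain ⟨p, hp1, rfl⟩ := Finset.mem_image.mp hv
          rw [Finset.mem_range]
          have := (hcell p hp1).2
          omega
      _ = _ := Finset.card_range _
  · intro v hv
    obtain ⟨p₀, hp₀, hv₀⟩ := Finset.mem_image.mp hv
    have hv1 := (hcell p₀ hp₀).1
    have hv2 := (hcell p₀ hp₀).2
    rw [hv₀] at hv1 hv2
    have hV1 : (xs B j : ℝ) ≤ (v : ℝ) / H := by
      rw [le_div_iff₀ hH0]
      have : ((H * xs B j : ℕ) : ℝ) ≤ v := by exact_mod_cast hv1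
      push_cast at this
      linarith
    have hV2 : (v : ℝ) / H ≤ ys A B j := by
      rw [div_le_iff₀ hH0]
      have : (v : ℝ) ≤ ((H * ys A B j : ℕ) : ℝ) := by exact_mod_cast hv2
      push_cast at this
      linarith
    have hmem : ∀ p ∈ (Ps W A B j).filter (fun p => cell H p = v),
        Real.exp ((v : ℝ) / H) ≤ p ∧ (p : ℝ) ≤ Real.exp ((v : ℝ) / H + 1 / H) := by
      intro p hpp
      rw [Finset.mem_filter] at hpp
      obtain ⟨h1, h2, h3⟩ := hp p hpp.1
      have h4 : 0 ≤ (H : ℝ) * Real.log p := by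
        have : (0 : ℝ) ≤ xs B j := by positivity
        have : 0 ≤ Real.log p := by linarith
        positivity
      have h5 : (v : ℝ) ≤ H * Real.log p := by
        rw [← hpp.2]
        exact Nat.floor_le h4
      have h6 : (H : ℝ) * Real.log p < v + 1 := by
        rw [← hpp.2]
        exact Nat.lt_floor_add_one _
      constructor
      · rw [← Real.le_log_iff_exp_le h1, div_le_iff₀ hH0]
        linarith
      · rw [← Real.log_le_iff_le_exp h1, ← add_div, le_div_iff₀ hH0]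
        linarith
    have h1H : 1 / (H : ℝ) ≤ 1 / 2 := one_div_le_one_div_of_le (by norm_num) hHr
    refine ⟨hV1, hV2, ?_, ?_⟩
    · intro p hpp
      obtain ⟨h1, h2⟩ := hmem p hpp
      refine ⟨h1, h2.trans ?_⟩
      apply Real.exp_le_exp.mpr
      linarith
    · set V := (v : ℝ) / H with hV
      have hV0 : 1 ≤ V := by
        have : (1 : ℝ) ≤ xs B j := by exact_mod_cast hxs1
        linarith
      set S := (Ps W A B j).filter (fun p => cell H p = v) with hS
      have hne : p₀ ∈ S := by rw [hS, Finset.mem_filter]; exact ⟨hp₀, hv₀⟩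
      have hsub : S ⊆ Finset.Icc ⌈Real.exp V⌉₊ ⌊Real.exp (V + 1 / H)⌋₊ := by
        intro p hpp
        obtain ⟨h1, h2⟩ := hmem p hpp
        rw [Finset.mem_Icc]
        exact ⟨Nat.ceil_le.mpr h1, Nat.le_floor h2⟩
      have hab : ⌈Real.exp V⌉₊ ≤ ⌊Real.exp (V + 1 / H)⌋₊ := by
        have := hsub hne
        rw [Finset.mem_Icc] at this
        exact this.1.trans this.2
      have ha1 : 1 ≤ ⌈Real.exp V⌉₊ := Nat.one_le_ceil_iff.mpr (Real.exp_pos _)
      have ha2 : Real.exp V ≤ (⌈Real.exp V⌉₊ : ℝ) := Nat.le_ceil _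
      have hb0 : (0 : ℝ) < (⌊Real.exp (V + 1 / H)⌋₊ : ℝ) := by
        exact_mod_cast lt_of_lt_of_le (by omega) hab
      have hb2 : (⌊Real.exp (V + 1 / H)⌋₊ : ℝ) ≤ Real.exp (V + 1 / H) :=
        Nat.floor_le (Real.exp_pos _).le
      calc ∑ p ∈ S, (1 : ℝ) / p
          ≤ ∑ n ∈ Finset.Icc ⌈Real.exp V⌉₊ ⌊Real.exp (V + 1 / H)⌋₊, (1 : ℝ) / n :=
            Finset.sum_le_sum_of_subset_of_nonneg hsub (fun _ _ _ => by positivity)
        _ ≤ 1 / (⌈Real.exp V⌉₊ : ℝ) + (Real.log (⌊Real.exp (V + 1 / H)⌋₊ : ℝ)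
              - Real.log (⌈Real.exp V⌉₊ : ℝ)) := sum_inv_le ha1 _ hab
        _ ≤ 1 / Real.exp V + ((V + 1 / H) - V) := by
            have h1 : 1 / (⌈Real.exp V⌉₊ : ℝ) ≤ 1 / Real.exp V :=
              one_div_le_one_div_of_le (Real.exp_pos _) ha2
            have h2 : Real.log (⌊Real.exp (V + 1 / H)⌋₊ : ℝ) ≤ V + 1 / H := by
              rw [Real.log_le_iff_le_exp hb0]
              exact hb2
            have h3 : V ≤ Real.log (⌈Real.exp V⌉₊ : ℝ) := by
              rw [Real.le_log_iff_exp_le (by linarith [Real.exp_pos V])]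
              exact ha2
            linarith
        _ ≤ 1 / 2 + 1 / 2 := by
            have h1 : 1 / Real.exp V ≤ 1 / 2 := by
              apply one_div_le_one_div_of_le (by norm_num)
              have := Real.add_one_le_exp V
              linarith
            linarith
        _ = 1 := by norm_num

end Pool.Agent.H82.MR
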