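import Mathlib
import Pool.Agent.H24.MR.InterfaceMR

/-!
`StatementHM` from `StatementBE2` (module [HM] of the project T1 on `MP_c59857_nt`).

The quadratic form dual to the Dirichlet polynomial is majorised by the average over
`v ∈ [0, 1]` of the forms of the windows `(M e^{v-3}, M e^{v+1}]`, whose kernels are
explicit up to the error of `StatementBE2`.
-/

set_option autoImplicit false

open Finset Filter

namespace Pool.Agent.H82.MR

open Pool.Agent.H24.MR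

lemma nit_mul_conj (n : ℕ) (t t' : ℝ) :
    nit n t * (starRingEnd ℂ) (nit n t') = nit n (t - t') := by
  unfold nit
  rw [← Complex.exp_conj, ← Complex.exp_add]
  congr 1
  simp only [map_neg, map_mul, Complex.conj_ofReal, Complex.conj_I]
  push_cast
  ring

lemma norm_nit (n : ℕ) (t : ℝ) : ‖nit n t‖ = 1 := by
  unfold nit
  rw [show (-((t * Real.log n : ℝ) : ℂ) * Complex.I)
    = ((-(t * Real.log n) : ℝ) : ℂ) * Complex.I by push_cast; ring]
  exact Complex.norm_exp_ofReal_mul_I _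

lemma cpow_eq_exp {x : ℝ} (hx : 0 < x) (τ : ℝ) :
    (x : ℂ) ^ (-((τ : ℂ) * Complex.I)) = Complex.exp (-((τ * Real.log x : ℝ) : ℂ) * Complex.I) := by
  rw [Complex.cpow_def_of_ne_zero (by exact_mod_cast hx.ne'), ← Complex.ofReal_log hx.le]
  congr 1
  push_cast
  ring

lemma cpow_eq_nit {n : ℕ} (hn : 1 ≤ n) (τ : ℝ) :
    ((n : ℝ) : ℂ) ^ (-(1 : ℂ) - τ * Complex.I) = (1 / (n : ℂ)) * nit n τ := by
  have hn' : (0 : ℝ) < n := by exact_mod_cast hn
  have h0 : ((n : ℝ) : ℂ) ≠ 0 := by exact_mod_cast hn'.ne'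
  rw [sub_eq_add_neg, Complex.cpow_add _ _ h0, cpow_eq_exp hn', Complex.cpow_neg_one]
  simp [nit]

lemma norm_cpow {x : ℝ} (hx : 0 < x) (τ : ℝ) :
    ‖(x : ℂ) ^ (-(1 : ℂ) - τ * Complex.I)‖ = x⁻¹ := by
  rw [Complex.norm_cpow_eq_rpow_re_of_pos hx]
  simp [Real.rpow_neg_one]

lemma intble {a b : ℝ} (ha : 0 < a) (hb : 0 < b) (τ : ℝ) :
    IntervalIntegrable (fun x : ℝ => (x : ℂ) ^ (-(1 : ℂ) - τ * Complex.I))
      MeasureTheory.volume a b := by
  apply intervalIntegral.intervalIntegrable_cpow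
  right
  intro h
  rw [Set.mem_uIcc] at h
  rcases h with h | h <;> linarith [h.1, h.2]

/-- iterated block bound -/
lemma blocks {C : ℝ} (hC : 0 < C)
    (h : ∀ (a b : ℕ) (τ : ℝ), 1 ≤ a → a ≤ b → b ≤ 4 * a →
    ‖∑ n ∈ Finset.Ioc a b, ((n : ℝ) : ℂ) ^ (-(1 : ℂ) - τ * Complex.I)
      - ∫ x in (a : ℝ)..b, ((x : ℝ) : ℂ) ^ (-(1 : ℂ) - τ * Complex.I)‖
      ≤ C * (1 + Real.log a) * (Real.sqrt a + Real.sqrt |τ|) / a) (τ : ℝ) :
    ∀ (k a b : ℕ), 1 ≤ a → a ≤ b → b ≤ 4 ^ k * a →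
    ‖∑ n ∈ Finset.Ioc a b, ((n : ℝ) : ℂ) ^ (-(1 : ℂ) - τ * Complex.I)
      - ∫ x in (a : ℝ)..b, ((x : ℝ) : ℂ) ^ (-(1 : ℂ) - τ * Complex.I)‖
      ≤ k * (C * (1 + Real.log b) * (Real.sqrt a + Real.sqrt |τ|) / a) := by
  intro k
  induction k with
  | zero =>
    intro a b ha hab hb
    have : a = b := by omega
    subst this
    simp
  | succ k ih =>
    intro a b ha hab hb
    have ha' : (1 : ℝ) ≤ a := by exact_mod_cast ha
    have hb' : (1 : ℝ) ≤ b := by exact_mod_cast ha.trans hab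
    have hlog : Real.log a ≤ Real.log b :=
      Real.log_le_log (by linarith) (by exact_mod_cast hab)
    have hlb : 0 ≤ Real.log b := Real.log_nonneg hb'
    have hs : 0 ≤ Real.sqrt a + Real.sqrt |τ| := by positivity
    set E := C * (1 + Real.log b) * (Real.sqrt a + Real.sqrt |τ|) / a with hE
    have hE0 : 0 ≤ E := by positivity
    have hfirst : C * (1 + Real.log a) * (Real.sqrt a + Real.sqrt |τ|) / a ≤ E := by
      rw [hE]
      gcongr
    by_cases hb4 : b ≤ 4 * a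
    · refine (h a b τ ha hab hb4).trans (hfirst.trans ?_)
      push_cast
      nlinarith [hE0, (Nat.cast_nonneg k : (0 : ℝ) ≤ k)]
    · push Not at hb4
      have h1 := h a (4 * a) τ ha (by omega) le_rfl
      have h2 := ih (4 * a) b (by omega) hb4.le (by rw [pow_succ] at hb; nlinarith [hb])
      have hsplit : ∑ n ∈ Finset.Ioc a b, ((n : ℝ) : ℂ) ^ (-(1 : ℂ) - τ * Complex.I)
          = ∑ n ∈ Finset.Ioc a (4 * a), ((n : ℝ) : ℂ) ^ (-(1 : ℂ) - τ * Complex.I)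
            + ∑ n ∈ Finset.Ioc (4 * a) b, ((n : ℝ) : ℂ) ^ (-(1 : ℂ) - τ * Complex.I) :=
        (Finset.sum_Ioc_consecutive _ (by omega) hb4.le).symm
      have hint : ∫ x in (a : ℝ)..b, ((x : ℝ) : ℂ) ^ (-(1 : ℂ) - τ * Complex.I)
          = (∫ x in (a : ℝ)..((4 * a : ℕ) : ℝ), ((x : ℝ) : ℂ) ^ (-(1 : ℂ) - τ * Complex.I))
            + ∫ x in ((4 * a : ℕ) : ℝ)..b, ((x : ℝ) : ℂ) ^ (-(1 : ℂ) - τ * Complex.I) := by
        rw [intervalIntegral.integral_add_adjacent_intervals]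
        · exact intble (by linarith) (by push_cast; linarith) τ
        · exact intble (by push_cast; linarith) (by linarith) τ
      rw [hsplit, hint]
      have h4 : C * (1 + Real.log b) * (Real.sqrt ((4 * a : ℕ) : ℝ) + Real.sqrt |τ|)
          / ((4 * a : ℕ) : ℝ) ≤ E := by
        rw [hE]
        push_cast
        have hs4 : Real.sqrt (4 * (a : ℝ)) = 2 * Real.sqrt a := by
          rw [Real.sqrt_mul (by norm_num)]
          congr 1
          rw [show (4 : ℝ) = 2 ^ 2 by norm_num]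
          exact Real.sqrt_sq (by norm_num)
        rw [hs4, div_le_div_iff₀ (by positivity) (by positivity)]
        have hm : 0 ≤ C * (1 + Real.log b) := by positivity
        have hsa : 0 ≤ Real.sqrt a := Real.sqrt_nonneg _
        have hst : 0 ≤ Real.sqrt |τ| := Real.sqrt_nonneg _
        have : (2 * Real.sqrt a + Real.sqrt |τ|) ≤ (Real.sqrt a + Real.sqrt |τ|) * 4 := by
          linarith
        calc C * (1 + Real.log b) * (2 * Real.sqrt a + Real.sqrt |τ|) * a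
            ≤ C * (1 + Real.log b) * ((Real.sqrt a + Real.sqrt |τ|) * 4) * a := by gcongr
          _ = _ := by ring
      calc _ ≤ ‖∑ n ∈ Finset.Ioc a (4 * a), ((n : ℝ) : ℂ) ^ (-(1 : ℂ) - τ * Complex.I)
            - ∫ x in (a : ℝ)..((4 * a : ℕ) : ℝ), ((x : ℝ) : ℂ) ^ (-(1 : ℂ) - τ * Complex.I)‖
          + ‖∑ n ∈ Finset.Ioc (4 * a) b, ((n : ℝ) : ℂ) ^ (-(1 : ℂ) - τ * Complex.I)
            - ∫ x in ((4 * a : ℕ) : ℝ)..b, ((x : ℝ) : ℂ) ^ (-(1 : ℂ) - τ * Complex.I)‖ := by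
            rw [add_sub_add_comm]
            exact norm_add_le _ _
        _ ≤ E + k * E := by
            refine add_le_add (h1.trans hfirst) (h2.trans ?_)
            gcongr
        _ = _ := by push_cast; ring

/-- replacing integer end points by real ones -/
lemma floor_int {A B : ℝ} (hA : 1 ≤ A) (hAB : A ≤ B) (τ : ℝ) :
    ‖(∫ x in (⌊A⌋₊ : ℝ)..(⌊B⌋₊ : ℝ), (x : ℂ) ^ (-(1 : ℂ) - τ * Complex.I))
      - ∫ x in A..B, (x : ℂ) ^ (-(1 : ℂ) - τ * Complex.I)‖ ≤ 2 / (⌊A⌋₊ : ℝ) := by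
  have hfA : (1 : ℝ) ≤ ⌊A⌋₊ := by exact_mod_cast Nat.floor_pos.mpr hA
  have hfAB : (⌊A⌋₊ : ℝ) ≤ ⌊B⌋₊ := by exact_mod_cast Nat.floor_mono hAB
  have hA1 : (⌊A⌋₊ : ℝ) ≤ A := Nat.floor_le (by linarith)
  have hA2 : A < ⌊A⌋₊ + 1 := Nat.lt_floor_add_one A
  have hB1 : (⌊B⌋₊ : ℝ) ≤ B := Nat.floor_le (by linarith)
  have hB2 : B < ⌊B⌋₊ + 1 := Nat.lt_floor_add_one B
  have h1 : (∫ x in (⌊A⌋₊ : ℝ)..(⌊B⌋₊ : ℝ), (x : ℂ) ^ (-(1 : ℂ) - τ * Complex.I))
      = (∫ x in (⌊A⌋₊ : ℝ)..A, (x : ℂ) ^ (-(1 : ℂ) - τ * Complex.I))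
        + (∫ x in A..B, (x : ℂ) ^ (-(1 : ℂ) - τ * Complex.I))
        + ∫ x in B..(⌊B⌋₊ : ℝ), (x : ℂ) ^ (-(1 : ℂ) - τ * Complex.I) := by
    rw [intervalIntegral.integral_add_adjacent_intervals
      (intble (by linarith) (by linarith) τ) (intble (by linarith) (by linarith) τ),
      intervalIntegral.integral_add_adjacent_intervals
      (intble (by linarith) (by linarith) τ) (intble (by linarith) (by linarith) τ)]
  have hbound : ∀ x : ℝ, (⌊A⌋₊ : ℝ) ≤ x →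
      ‖(x : ℂ) ^ (-(1 : ℂ) - τ * Complex.I)‖ ≤ 1 / (⌊A⌋₊ : ℝ) := by
    intro x hx
    rw [norm_cpow (by linarith), ← one_div]
    exact one_div_le_one_div_of_le (by linarith) hx
  have h2 : ‖∫ x in (⌊A⌋₊ : ℝ)..A, (x : ℂ) ^ (-(1 : ℂ) - τ * Complex.I)‖
      ≤ 1 / (⌊A⌋₊ : ℝ) * |A - ⌊A⌋₊| := by
    apply intervalIntegral.norm_integral_le_of_norm_le_const
    intro x hx
    rw [Set.uIoc_of_le hA1] at hx
    exact hbound x hx.1.le
  have h3 : ‖∫ x in B..(⌊B⌋₊ : ℝ), (x : ℂ) ^ (-(1 : ℂ) - τ * Complex.I)‖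
      ≤ 1 / (⌊A⌋₊ : ℝ) * |⌊B⌋₊ - B| := by
    apply intervalIntegral.norm_integral_le_of_norm_le_const
    intro x hx
    rw [Set.uIoc_of_ge hB1] at hx
    exact hbound x (hfAB.trans hx.1.le)
  have h4 : |A - ⌊A⌋₊| ≤ 1 := by rw [abs_of_nonneg (by linarith)]; linarith
  have h5 : |(⌊B⌋₊ : ℝ) - B| ≤ 1 := by rw [abs_of_nonpos (by linarith)]; linarith
  rw [h1]
  calc _ = ‖(∫ x in (⌊A⌋₊ : ℝ)..A, (x : ℂ) ^ (-(1 : ℂ) - τ * Complex.I))
        + ∫ x in B..(⌊B⌋₊ : ℝ), (x : ℂ) ^ (-(1 : ℂ) - τ * Complex.I)‖ := by congr 1; ring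
    _ ≤ 1 / (⌊A⌋₊ : ℝ) * 1 + 1 / (⌊A⌋₊ : ℝ) * 1 := by
      refine (norm_add_le _ _).trans (add_le_add (h2.trans ?_) (h3.trans ?_))
      · gcongr
      · gcongr
    _ = _ := by ring

/-- the explicit kernel -/
noncomputable def Ker (M τ : ℝ) : ℂ :=
  if τ = 0 then 4 else
    Complex.exp (-((τ * Real.log M : ℝ) : ℂ) * Complex.I) *
      ((Complex.exp (((3 * τ : ℝ) : ℂ) * Complex.I) - Complex.exp (((-τ : ℝ) : ℂ) * Complex.I))
        / (τ * Complex.I))

lemma main_int {M : ℝ} (hM : 0 < M) (v τ : ℝ) :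
    ∫ x in (M * Real.exp (v - 3))..(M * Real.exp (v + 1)),
      (x : ℂ) ^ (-(1 : ℂ) - τ * Complex.I)
      = Ker M τ * Complex.exp (-((v * τ : ℝ) : ℂ) * Complex.I) := by
  have hA : 0 < M * Real.exp (v - 3) := by positivity
  have hB : 0 < M * Real.exp (v + 1) := by positivity
  have h0 : (0 : ℝ) ∉ Set.uIcc (M * Real.exp (v - 3)) (M * Real.exp (v + 1)) := by
    intro h
    rw [Set.mem_uIcc] at h
    rcases h with h | h <;> linarith [h.1, h.2]
  have lA : Real.log (M * Real.exp (v - 3)) = Real.log M + (v - 3) := by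
    rw [Real.log_mul hM.ne' (Real.exp_pos _).ne', Real.log_exp]
  have lB : Real.log (M * Real.exp (v + 1)) = Real.log M + (v + 1) := by
    rw [Real.log_mul hM.ne' (Real.exp_pos _).ne', Real.log_exp]
  by_cases hτ : τ = 0
  · subst hτ
    have h1 : ∀ x : ℝ, (x : ℂ) ^ (-(1 : ℂ) - ((0 : ℝ) : ℂ) * Complex.I) = ((x⁻¹ : ℝ) : ℂ) := by
      intro x
      simp [Complex.cpow_neg_one]
    simp_rw [h1]
    rw [intervalIntegral.integral_ofReal, integral_inv h0, Real.log_div hB.ne' hA.ne', lA, lB]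
    simp [Ker]
    norm_num
  · have hτc : (τ : ℂ) ≠ 0 := by exact_mod_cast hτ
    rw [integral_cpow (Or.inr ⟨?_, h0⟩)]
    · have e1 : (-(1 : ℂ) - τ * Complex.I + 1) = -((τ : ℂ) * Complex.I) := by ring
      rw [e1, cpow_eq_exp hB, cpow_eq_exp hA, lA, lB, Ker, if_neg hτ]
      have e2 : Complex.exp (-((τ * (Real.log M + (v + 1)) : ℝ) : ℂ) * Complex.I)
          = Complex.exp (-((τ * Real.log M : ℝ) : ℂ) * Complex.I)
            * Complex.exp (((-τ : ℝ) : ℂ) * Complex.I)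
            * Complex.exp (-((v * τ : ℝ) : ℂ) * Complex.I) := by
        rw [← Complex.exp_add, ← Complex.exp_add]
        congr 1
        push_cast
        ring
      have e3 : Complex.exp (-((τ * (Real.log M + (v - 3)) : ℝ) : ℂ) * Complex.I)
          = Complex.exp (-((τ * Real.log M : ℝ) : ℂ) * Complex.I)
            * Complex.exp (((3 * τ : ℝ) : ℂ) * Complex.I)
            * Complex.exp (-((v * τ : ℝ) : ℂ) * Complex.I) := by
        rw [← Complex.exp_add, ← Complex.exp_add]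
        congr 1
        push_cast
        ring
      rw [e2, e3]
      have hI : (τ : ℂ) * Complex.I ≠ 0 := mul_ne_zero hτc Complex.I_ne_zero
      field_simp
      ring
    · intro h
      have : ((-(1 : ℂ) - τ * Complex.I)).im = (-1 : ℂ).im := by rw [h]
      simp at this
      exact hτ this

lemma norm_Ker {M τ : ℝ} (hτ : τ ≠ 0) : ‖Ker M τ‖ ≤ 2 / |τ| := by
  rw [Ker, if_neg hτ, norm_mul, norm_div, norm_mul, Complex.norm_I, mul_one, Complex.norm_real,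
    Real.norm_eq_abs]
  rw [show (-((τ * Real.log M : ℝ) : ℂ) * Complex.I)
    = ((-(τ * Real.log M) : ℝ) : ℂ) * Complex.I by push_cast; ring,
    Complex.norm_exp_ofReal_mul_I, one_mul]
  gcongr
  refine (norm_sub_le _ _).trans ?_
  rw [Complex.norm_exp_ofReal_mul_I, Complex.norm_exp_ofReal_mul_I]
  norm_num

/-- the average over the shift -/
lemma int_exp (τ : ℝ) (hτ : τ ≠ 0) :
    ‖∫ v in (0 : ℝ)..1, Complex.exp (-((v * τ : ℝ) : ℂ) * Complex.I)‖ ≤ 2 / |τ| := by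
  have hc : (-(τ : ℂ) * Complex.I) ≠ 0 :=
    mul_ne_zero (neg_ne_zero.mpr (by exact_mod_cast hτ)) Complex.I_ne_zero
  have h1 : ∀ v : ℝ, Complex.exp (-((v * τ : ℝ) : ℂ) * Complex.I)
      = Complex.exp ((-(τ : ℂ) * Complex.I) * v) := by
    intro v
    congr 1
    push_cast
    ring
  simp_rw [h1]
  rw [integral_exp_mul_complex hc, norm_div]
  have h2 : ‖(-(τ : ℂ) * Complex.I)‖ = |τ| := by simp
  rw [h2]
  gcongr
  refine (norm_sub_le _ _).trans ?_
  have h3 : ∀ v : ℝ, ‖Complex.exp ((-(τ : ℂ) * Complex.I) * v)‖ = 1 := by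
    intro v
    rw [show (-(τ : ℂ) * Complex.I) * v = ((-(τ * v) : ℝ) : ℂ) * Complex.I by push_cast; ring]
    exact Complex.norm_exp_ofReal_mul_I _
  have h4 := h3 1
  have h5 := h3 0
  rw [h4, h5]
  norm_num

/-- weight of the Schur test -/
noncomputable def wt (τ : ℝ) : ℝ := if τ = 0 then 4 else 4 / τ ^ 2

lemma wt_nonneg (τ : ℝ) : 0 ≤ wt τ := by
  unfold wt
  split_ifs <;> positivity

lemma wt_neg (τ : ℝ) : wt (-τ) = wt τ := by
  unfold wt
  by_cases h : τ = 0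
  · simp [h]
  · simp [h]

lemma norm_KE (M τ : ℝ) :
    ‖Ker M τ * ∫ v in (0 : ℝ)..1, Complex.exp (-((v * τ : ℝ) : ℂ) * Complex.I)‖ ≤ wt τ := by
  by_cases hτ : τ = 0
  · subst hτ
    simp [Ker, wt]
  · rw [norm_mul, wt, if_neg hτ]
    have h1 := norm_Ker (M := M) hτ
    have h2 := int_exp τ hτ
    have h3 : 0 < |τ| := abs_pos.mpr hτ
    calc _ ≤ 2 / |τ| * (2 / |τ|) := by gcongr
      _ = 4 / |τ| ^ 2 := by ring
      _ = _ := by rw [sq_abs]

/-- one-sided sum over separated points -/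
lemma sep_half (S : Finset ℝ) (u : ℝ → ℝ) (hu : ∀ s ∈ S, 1 ≤ u s)
    (hsep : ∀ s ∈ S, ∀ t ∈ S, s ≠ t → 1 ≤ |u s - u t|) :
    ∑ s ∈ S, 4 / (u s) ^ 2 ≤ 8 := by
  have hinj : Set.InjOn (fun s => ⌊u s⌋₊) (S : Set ℝ) := by
    intro s hs t ht hst
    by_contra hne
    have h1 := hsep s hs t ht hne
    have h2 := Nat.floor_le (zero_le_one.trans (hu s hs))
    have h3 := Nat.floor_le (zero_le_one.trans (hu t ht))
    have h4 := Nat.lt_floor_add_one (u s)
    have h5 := Nat.lt_floor_add_one (u t)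
    have h6 : (⌊u s⌋₊ : ℝ) = ⌊u t⌋₊ := by exact_mod_cast hst
    have h7 : |u s - u t| < 1 := by
      rw [abs_lt]
      constructor <;> linarith
    linarith
  have h1 : ∑ s ∈ S, 4 / (u s) ^ 2 ≤ ∑ s ∈ S, 4 * (((⌊u s⌋₊ : ℕ) : ℝ) ^ 2)⁻¹ := by
    apply Finset.sum_le_sum
    intro s hs
    have h2 := Nat.floor_le (zero_le_one.trans (hu s hs))
    have h3 : (1 : ℝ) ≤ (⌊u s⌋₊ : ℕ) := by exact_mod_cast Nat.floor_pos.mpr (hu s hs)
    rw [div_eq_mul_inv]
    gcongr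
  refine h1.trans ?_
  rw [← Finset.mul_sum]
  have h2 : ∑ s ∈ S, (((⌊u s⌋₊ : ℕ) : ℝ) ^ 2)⁻¹ = ∑ k ∈ S.image (fun s => ⌊u s⌋₊), ((k : ℝ) ^ 2)⁻¹ := by
    rw [Finset.sum_image hinj]
  rw [h2]
  set K := (S.image (fun s => ⌊u s⌋₊)).sup id + 1 with hK
  have h3 : S.image (fun s => ⌊u s⌋₊) ⊆ Finset.Ioo 0 K := by
    intro k hk
    rw [Finset.mem_Ioo]
    constructor
    · obtain ⟨s, hs, rfl⟩ := Finset.mem_image.mp hk
      exact Nat.floor_pos.mpr (hu s hs)
    · have := Finset.le_sup (f := id) hk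
      simp only [id] at this
      omega
  have h4 : ∑ k ∈ S.image (fun s => ⌊u s⌋₊), ((k : ℝ) ^ 2)⁻¹
      ≤ ∑ k ∈ Finset.Ioo 0 K, ((k : ℝ) ^ 2)⁻¹ :=
    Finset.sum_le_sum_of_subset_of_nonneg h3 (fun _ _ _ => by positivity)
  have h5 := sum_Ioo_inv_sq_le (α := ℝ) 0 K
  norm_num at h5
  linarith

lemma sep_sum (S : Finset ℝ) (hsep : ∀ s ∈ S, ∀ t ∈ S, s ≠ t → 1 ≤ |s - t|) (t : ℝ) (ht : t ∈ S) :
    ∑ s ∈ S, wt (t - s) ≤ 20 := by
  have h1 : ∑ s ∈ S, wt (t - s) = wt (t - t) + ∑ s ∈ S.erase t, wt (t - s) :=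
    (Finset.add_sum_erase S (fun s => wt (t - s)) ht).symm
  have h2 : ∑ s ∈ S.erase t, wt (t - s)
      = ∑ s ∈ (S.erase t).filter (fun s => t < s), wt (t - s)
        + ∑ s ∈ (S.erase t).filter (fun s => ¬ t < s), wt (t - s) :=
    (Finset.sum_filter_add_sum_filter_not _ _ _).symm
  have h3 : ∑ s ∈ (S.erase t).filter (fun s => t < s), wt (t - s) ≤ 8 := by
    have := sep_half ((S.erase t).filter (fun s => t < s)) (fun s => s - t) ?_ ?_
    · refine le_trans (Finset.sum_le_sum ?_) this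
      intro s hs
      rw [Finset.mem_filter, Finset.mem_erase] at hs
      rw [wt, if_neg (sub_ne_zero.mpr (Ne.symm hs.1.1))]
      rw [show (t - s) ^ 2 = (s - t) ^ 2 by ring]
    · intro s hs
      rw [Finset.mem_filter, Finset.mem_erase] at hs
      have := hsep s hs.1.2 t ht hs.1.1
      rwa [abs_of_pos (by linarith [hs.2])] at this
    · intro s hs s' hs' hne
      rw [Finset.mem_filter, Finset.mem_erase] at hs hs'
      have := hsep s hs.1.2 s' hs'.1.2 hne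
      rwa [show s - t - (s' - t) = s - s' by ring]
  have h4 : ∑ s ∈ (S.erase t).filter (fun s => ¬ t < s), wt (t - s) ≤ 8 := by
    have := sep_half ((S.erase t).filter (fun s => ¬ t < s)) (fun s => t - s) ?_ ?_
    · refine le_trans (Finset.sum_le_sum ?_) this
      intro s hs
      rw [Finset.mem_filter, Finset.mem_erase] at hs
      rw [wt, if_neg (sub_ne_zero.mpr (Ne.symm hs.1.1))]
    · intro s hs
      rw [Finset.mem_filter, Finset.mem_erase] at hs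
      have h5 := hsep s hs.1.2 t ht hs.1.1
      have h6 : s ≤ t := not_lt.mp hs.2
      rw [abs_of_nonpos (by linarith)] at h5
      linarith
    · intro s hs s' hs' hne
      rw [Finset.mem_filter, Finset.mem_erase] at hs hs'
      have := hsep s hs.1.2 s' hs'.1.2 hne
      rw [show t - s - (t - s') = -(s - s') by ring, abs_neg]
      exact this
  have h5 : wt (t - t) = 4 := by simp [wt]
  rw [h1, h2, h5]
  linarith

/-- Schur test -/
lemma schur (S : Finset ℝ) (hsep : ∀ s ∈ S, ∀ t ∈ S, s ≠ t → 1 ≤ |s - t|) (x : ℝ → ℝ) :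
    ∑ t ∈ S, ∑ s ∈ S, x t * x s * wt (t - s) ≤ 20 * ∑ t ∈ S, x t ^ 2 := by
  have h1 : ∑ t ∈ S, ∑ s ∈ S, x t * x s * wt (t - s)
      ≤ ∑ t ∈ S, ∑ s ∈ S, (x t ^ 2 / 2 * wt (t - s) + x s ^ 2 / 2 * wt (t - s)) := by
    apply Finset.sum_le_sum
    intro t _
    apply Finset.sum_le_sum
    intro s _
    have := wt_nonneg (t - s)
    nlinarith [sq_nonneg (x t - x s)]
  have h2 : ∑ t ∈ S, ∑ s ∈ S, (x t ^ 2 / 2 * wt (t - s) + x s ^ 2 / 2 * wt (t - s))
      = ∑ t ∈ S, x t ^ 2 * ∑ s ∈ S, wt (t - s) := by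
    simp_rw [Finset.sum_add_distrib]
    rw [Finset.sum_comm (f := fun t s => x s ^ 2 / 2 * wt (t - s)), ← Finset.sum_add_distrib]
    apply Finset.sum_congr rfl
    intro t _
    rw [← Finset.mul_sum, ← Finset.mul_sum]
    have : ∑ s ∈ S, wt (s - t) = ∑ s ∈ S, wt (t - s) := by
      apply Finset.sum_congr rfl
      intro s _
      rw [← wt_neg]
      congr 1
      ring
    rw [this]
    ring
  rw [h2] at h1
  refine h1.trans ?_
  rw [Finset.mul_sum]
  apply Finset.sum_le_sum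
  intro t ht
  have := sep_sum S hsep t ht
  nlinarith [sq_nonneg (x t)]


/-- the dual form -/
noncomputable def Gf (S : Finset ℝ) (c : ℝ → ℂ) (n : ℕ) : ℂ := ∑ t ∈ S, c t * nit n t

lemma Gf_sq (S : Finset ℝ) (c : ℝ → ℂ) (n : ℕ) :
    ((‖Gf S c n‖ ^ 2 : ℝ) : ℂ)
      = ∑ t ∈ S, ∑ s ∈ S, c t * (starRingEnd ℂ) (c s) * nit n (t - s) := by
  rw [← Complex.normSq_eq_norm_sq, ← Complex.mul_conj, Gf, map_sum, Finset.sum_mul_sum]
  apply Finset.sum_congr rfl
  intro t _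
  apply Finset.sum_congr rfl
  intro s _
  rw [map_mul, ← nit_mul_conj]
  ring

lemma form_eq (S : Finset ℝ) (c : ℝ → ℂ) (I : Finset ℕ) (hI : ∀ n ∈ I, 1 ≤ n) :
    ((∑ n ∈ I, 1 / (n : ℝ) * ‖Gf S c n‖ ^ 2 : ℝ) : ℂ)
      = ∑ t ∈ S, ∑ s ∈ S, c t * (starRingEnd ℂ) (c s) *
        ∑ n ∈ I, ((n : ℝ) : ℂ) ^ (-(1 : ℂ) - ((t - s : ℝ) : ℂ) * Complex.I) := by
  have h1 : ((∑ n ∈ I, 1 / (n : ℝ) * ‖Gf S c n‖ ^ 2 : ℝ) : ℂ)
      = ∑ n ∈ I, 1 / (n : ℂ) * ((‖Gf S c n‖ ^ 2 : ℝ) : ℂ) := by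
    push_cast
    rfl
  rw [h1]
  simp_rw [Gf_sq, Finset.mul_sum]
  rw [Finset.sum_comm]
  apply Finset.sum_congr rfl
  intro t _
  rw [Finset.sum_comm]
  apply Finset.sum_congr rfl
  intro s _
  apply Finset.sum_congr rfl
  intro n hn
  rw [cpow_eq_nit (hI n hn)]
  ring

/-- bound for the dual form over a window, from uniform kernel bounds -/
lemma dual_bound (S : Finset ℝ) (hsep : ∀ s ∈ S, ∀ t ∈ S, s ≠ t → 1 ≤ |s - t|) (c : ℝ → ℂ)
    (M ε D : ℝ) (N : Finset ℕ) (W : ℝ → Finset ℕ)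
    (hD : D = ∑ n ∈ N, 1 / (n : ℝ) * ‖Gf S c n‖ ^ 2)
    (hW : ∀ v ∈ Set.Icc (0 : ℝ) 1, N ⊆ W v ∧ (∀ n ∈ W v, 1 ≤ n) ∧
      ∀ t ∈ S, ∀ s ∈ S, ‖∑ n ∈ W v, ((n : ℝ) : ℂ) ^ (-(1 : ℂ) - ((t - s : ℝ) : ℂ) * Complex.I)
        - Ker M (t - s) * Complex.exp (-((v * (t - s) : ℝ) : ℂ) * Complex.I)‖ ≤ ε) :
    D ≤ (20 + ε * S.card) * ∑ t ∈ S, ‖c t‖ ^ 2 := by
  set f : ℝ → ℂ := fun v => ∑ t ∈ S, ∑ s ∈ S, c t * (starRingEnd ℂ) (c s) *
    (Ker M (t - s) * Complex.exp (-((v * (t - s) : ℝ) : ℂ) * Complex.I)) with hf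
  have hfc : Continuous f := by
    rw [hf]
    fun_prop
  set R : ℝ := ε * (∑ t ∈ S, ‖c t‖) ^ 2 with hR
  have hpt : ∀ v ∈ Set.Icc (0 : ℝ) 1, D ≤ (f v).re + R := by
    intro v hv
    obtain ⟨h1, h2, h3⟩ := hW v hv
    have h4 : D ≤ ∑ n ∈ W v, 1 / (n : ℝ) * ‖Gf S c n‖ ^ 2 := by
      rw [hD]
      exact Finset.sum_le_sum_of_subset_of_nonneg h1 (fun _ _ _ => by positivity)
    have h5 := form_eq S c (W v) h2
    have h6 : ∑ n ∈ W v, 1 / (n : ℝ) * ‖Gf S c n‖ ^ 2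
        = (∑ t ∈ S, ∑ s ∈ S, c t * (starRingEnd ℂ) (c s) *
        ∑ n ∈ W v, ((n : ℝ) : ℂ) ^ (-(1 : ℂ) - ((t - s : ℝ) : ℂ) * Complex.I)).re := by
      rw [← h5, Complex.ofReal_re]
    rw [h6] at h4
    have h7 : (∑ t ∈ S, ∑ s ∈ S, c t * (starRingEnd ℂ) (c s) *
        ∑ n ∈ W v, ((n : ℝ) : ℂ) ^ (-(1 : ℂ) - ((t - s : ℝ) : ℂ) * Complex.I))
        = f v + ∑ t ∈ S, ∑ s ∈ S, c t * (starRingEnd ℂ) (c s) *
          (∑ n ∈ W v, ((n : ℝ) : ℂ) ^ (-(1 : ℂ) - ((t - s : ℝ) : ℂ) * Complex.I)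
          - Ker M (t - s) * Complex.exp (-((v * (t - s) : ℝ) : ℂ) * Complex.I)) := by
      rw [hf]
      simp only
      rw [← Finset.sum_add_distrib]
      apply Finset.sum_congr rfl
      intro t _
      rw [← Finset.sum_add_distrib]
      apply Finset.sum_congr rfl
      intro s _
      ring
    rw [h7, Complex.add_re] at h4
    have h8 : (∑ t ∈ S, ∑ s ∈ S, c t * (starRingEnd ℂ) (c s) *
          (∑ n ∈ W v, ((n : ℝ) : ℂ) ^ (-(1 : ℂ) - ((t - s : ℝ) : ℂ) * Complex.I)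
          - Ker M (t - s) * Complex.exp (-((v * (t - s) : ℝ) : ℂ) * Complex.I))).re ≤ R := by
      refine (Complex.re_le_norm _).trans ?_
      refine (norm_sum_le _ _).trans ?_
      have : R = ∑ t ∈ S, ∑ s ∈ S, ‖c t‖ * ‖c s‖ * ε := by
        rw [hR, sq, Finset.sum_mul_sum, Finset.mul_sum]
        apply Finset.sum_congr rfl
        intro t _
        rw [Finset.mul_sum]
        apply Finset.sum_congr rfl
        intro s _
        ring
      rw [this]
      apply Finset.sum_le_sum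
      intro t ht
      refine (norm_sum_le _ _).trans ?_
      apply Finset.sum_le_sum
      intro s hs
      rw [norm_mul, norm_mul, RCLike.norm_conj]
      gcongr
      exact h3 t ht s hs
    linarith
  have hint : D ≤ ∫ v in (0 : ℝ)..1, ((f v).re + R) := by
    have h1 : D = ∫ _ in (0 : ℝ)..1, D := by simp
    rw [h1]
    apply intervalIntegral.integral_mono_on (by norm_num)
    · exact intervalIntegrable_const
    · exact (by fun_prop : Continuous fun v : ℝ => (f v).re + R).intervalIntegrable 0 1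
    · exact hpt
  have hre : ∫ v in (0 : ℝ)..1, ((f v).re + R) = (∫ v in (0 : ℝ)..1, f v).re + R := by
    rw [intervalIntegral.integral_add]
    · have := Complex.reCLM.intervalIntegral_comp_comm
        (hfc.intervalIntegrable (μ := MeasureTheory.volume) (0 : ℝ) 1)
      simp only [Complex.reCLM_apply] at this
      rw [this]
      simp
    · exact (by fun_prop : Continuous fun v : ℝ => (f v).re).intervalIntegrable 0 1
    · exact intervalIntegrable_const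
  have hfi : ∫ v in (0 : ℝ)..1, f v = ∑ t ∈ S, ∑ s ∈ S, c t * (starRingEnd ℂ) (c s) *
      (Ker M (t - s) * ∫ v in (0 : ℝ)..1,
        Complex.exp (-((v * (t - s) : ℝ) : ℂ) * Complex.I)) := by
    rw [hf]
    rw [intervalIntegral.integral_finsetSum]
    · apply Finset.sum_congr rfl
      intro t _
      rw [intervalIntegral.integral_finsetSum]
      · apply Finset.sum_congr rfl
        intro s _
        rw [intervalIntegral.integral_const_mul, intervalIntegral.integral_const_mul]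
      · intro s _
        exact (by fun_prop : Continuous _).intervalIntegrable _ _
    · intro t _
      exact (by fun_prop : Continuous _).intervalIntegrable _ _
  have hmain : (∫ v in (0 : ℝ)..1, f v).re ≤ 20 * ∑ t ∈ S, ‖c t‖ ^ 2 := by
    refine (Complex.re_le_norm _).trans ?_
    rw [hfi]
    refine le_trans ?_ (schur S hsep (fun t => ‖c t‖))
    refine (norm_sum_le _ _).trans ?_
    apply Finset.sum_le_sum
    intro t _
    refine (norm_sum_le _ _).trans ?_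
    apply Finset.sum_le_sum
    intro s _
    rw [norm_mul, norm_mul (c t), RCLike.norm_conj]
    gcongr
    exact norm_KE M (t - s)
  have hCS : (∑ t ∈ S, ‖c t‖) ^ 2 ≤ S.card * ∑ t ∈ S, ‖c t‖ ^ 2 := sq_sum_le_card_mul_sum_sq
  by_cases hS : S.Nonempty
  · have hε : 0 ≤ ε := by
      obtain ⟨t, ht⟩ := hS
      exact (norm_nonneg _).trans ((hW 0 (by simp)).2.2 t ht t ht)
    calc D ≤ (∫ v in (0 : ℝ)..1, f v).re + R := by rw [← hre]; exact hint
      _ ≤ 20 * ∑ t ∈ S, ‖c t‖ ^ 2 + ε * (S.card * ∑ t ∈ S, ‖c t‖ ^ 2) := by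
        rw [hR]
        gcongr
      _ = _ := by ring
  · rw [Finset.not_nonempty_iff_eq_empty] at hS
    subst hS
    rw [hD]
    simp [Gf]

/-- duality -/
lemma duality (S : Finset ℝ) (N : Finset ℕ) (a : ℕ → ℂ) (ha : ∀ n, ‖a n‖ ≤ 1 / n)
    (B K : ℝ) (hK : 0 ≤ K) (hB : ∑ n ∈ N, 1 / (n : ℝ) ≤ B)
    (hdual : ∀ c : ℝ → ℂ, ∑ n ∈ N, 1 / (n : ℝ) * ‖Gf S c n‖ ^ 2 ≤ K * ∑ t ∈ S, ‖c t‖ ^ 2) :
    ∑ t ∈ S, ‖∑ n ∈ N, a n * nit n t‖ ^ 2 ≤ B * K := by
  set A : ℝ → ℂ := fun t => ∑ n ∈ N, a n * nit n t with hA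
  set c : ℝ → ℂ := fun t => (starRingEnd ℂ) (A t) with hc
  set T : ℝ := ∑ t ∈ S, ‖A t‖ ^ 2 with hT
  have hcn : ∀ t, ‖c t‖ = ‖A t‖ := fun t => by rw [hc]; exact RCLike.norm_conj _
  have hT0 : 0 ≤ T := Finset.sum_nonneg (fun _ _ => by positivity)
  have h1 : (T : ℂ) = ∑ n ∈ N, a n * Gf S c n := by
    rw [hT]
    push_cast
    have : ∀ t ∈ S, ((‖A t‖ : ℂ)) ^ 2 = ∑ n ∈ N, a n * (c t * nit n t) := by
      intro t _
      have h2 : ((‖A t‖ : ℂ)) ^ 2 = c t * A t := by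
        rw [← Complex.ofReal_pow, ← Complex.normSq_eq_norm_sq, ← Complex.mul_conj, hc]
        ring
      rw [h2]
      simp only [hA]
      rw [Finset.mul_sum]
      apply Finset.sum_congr rfl
      intro n _
      ring
    rw [Finset.sum_congr rfl this, Finset.sum_comm]
    apply Finset.sum_congr rfl
    intro n _
    rw [Gf, Finset.mul_sum]
  have h2 : T ≤ ∑ n ∈ N, 1 / (n : ℝ) * ‖Gf S c n‖ := by
    have h3 : T = ‖(T : ℂ)‖ := by rw [Complex.norm_real, Real.norm_eq_abs, abs_of_nonneg hT0]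
    rw [h3, h1]
    refine (norm_sum_le _ _).trans ?_
    apply Finset.sum_le_sum
    intro n _
    rw [norm_mul]
    gcongr
    exact ha n
  have h3 : (∑ n ∈ N, 1 / (n : ℝ) * ‖Gf S c n‖) ^ 2
      ≤ (∑ n ∈ N, 1 / (n : ℝ)) * ∑ n ∈ N, 1 / (n : ℝ) * ‖Gf S c n‖ ^ 2 := by
    apply Finset.sum_sq_le_sum_mul_sum_of_sq_le_mul
    · intro n _; positivity
    · intro n _; positivity
    · intro n _; exact le_of_eq (by ring)
  have h4 := hdual c
  have h5 : ∑ t ∈ S, ‖c t‖ ^ 2 = T := by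
    rw [hT]
    exact Finset.sum_congr rfl (fun t _ => by rw [hcn])
  rw [h5] at h4
  have hB0 : 0 ≤ B := by
    refine le_trans ?_ hB
    exact Finset.sum_nonneg (fun n _ => by positivity)
  have h6 : T ^ 2 ≤ B * (K * T) := by
    calc T ^ 2 ≤ (∑ n ∈ N, 1 / (n : ℝ) * ‖Gf S c n‖) ^ 2 := by gcongr
      _ ≤ _ := h3
      _ ≤ B * (K * T) := by
        gcongr
  by_cases hT' : T = 0
  · change T ≤ B * K
    rw [hT']
    positivity
  · have hTpos : 0 < T := lt_of_le_of_ne hT0 (Ne.symm hT')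
    change T ≤ B * K
    by_contra hlt
    push Not at hlt
    nlinarith [mul_pos hTpos (sub_pos.mpr hlt)]


lemma sum_window {M : ℝ} (hM : 200 ≤ M) :
    ∑ n ∈ Finset.Icc ⌈M / Real.exp 1⌉₊ ⌊M * Real.exp 1⌋₊, 1 / (n : ℝ) ≤ 8 := by
  have he1 : Real.exp 1 < 2.7182818286 := Real.exp_one_lt_d9
  have he2 : 2.7182818283 < Real.exp 1 := Real.exp_one_gt_d9
  have hM0 : 0 < M := by linarith
  have hMe : 1 ≤ M / Real.exp 1 := by
    rw [le_div_iff₀ (Real.exp_pos 1)]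
    linarith
  have h1 : ∀ n ∈ Finset.Icc ⌈M / Real.exp 1⌉₊ ⌊M * Real.exp 1⌋₊,
      1 / (n : ℝ) ≤ Real.exp 1 / M := by
    intro n hn
    rw [Finset.mem_Icc] at hn
    have h2 : M / Real.exp 1 ≤ n := (Nat.le_ceil _).trans (by exact_mod_cast hn.1)
    have h3 : 0 < M / Real.exp 1 := by positivity
    calc 1 / (n : ℝ) ≤ 1 / (M / Real.exp 1) := one_div_le_one_div_of_le h3 h2
      _ = _ := by rw [one_div_div]
  have h2 := Finset.sum_le_card_nsmul _ _ _ h1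
  refine h2.trans ?_
  rw [nsmul_eq_mul, Nat.card_Icc]
  have h3 : ((⌊M * Real.exp 1⌋₊ + 1 - ⌈M / Real.exp 1⌉₊ : ℕ) : ℝ) ≤ M * Real.exp 1 := by
    have h4 : 1 ≤ ⌈M / Real.exp 1⌉₊ := Nat.one_le_ceil_iff.mpr (by linarith)
    have h5 : ⌊M * Real.exp 1⌋₊ + 1 - ⌈M / Real.exp 1⌉₊ ≤ ⌊M * Real.exp 1⌋₊ := by omega
    have h6 : (⌊M * Real.exp 1⌋₊ : ℝ) ≤ M * Real.exp 1 := Nat.floor_le (by positivity)
    exact (by exact_mod_cast h5 : ((⌊M * Real.exp 1⌋₊ + 1 - ⌈M / Real.exp 1⌉₊ : ℕ) : ℝ)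
      ≤ (⌊M * Real.exp 1⌋₊ : ℝ)).trans h6
  calc _ ≤ M * Real.exp 1 * (Real.exp 1 / M) := by gcongr
    _ = Real.exp 1 ^ 2 := by field_simp
    _ ≤ 8 := by nlinarith

lemma threshold {C : ℝ} : ∃ X₁ : ℝ, ∀ X, X₁ ≤ X →
    X ^ (9 / 20 : ℝ) * ((225 * C * (4 + Real.log X) * Real.sqrt X + 50) / X ^ (24 / 25 : ℝ))
      ≤ 1 := by
  have h1 : Tendsto (fun X : ℝ => 900 * C * X ^ (-(1 / 100 : ℝ))
      + 225 * C * (Real.log X / X ^ (1 / 100 : ℝ)) + 50 * X ^ (-(51 / 100 : ℝ)))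
      atTop (nhds (900 * C * 0 + 225 * C * 0 + 50 * 0)) := by
    refine Tendsto.add (Tendsto.add ?_ ?_) ?_
    · exact (tendsto_rpow_neg_atTop (by norm_num)).const_mul _
    · exact ((isLittleO_log_rpow_atTop (by norm_num)).tendsto_div_nhds_zero).const_mul _
    · exact (tendsto_rpow_neg_atTop (by norm_num)).const_mul _
  have h2 : (900 * C * 0 + 225 * C * 0 + 50 * 0 : ℝ) < 1 := by norm_num
  have h3 := (h1.eventually_lt_const h2).and (eventually_gt_atTop (0 : ℝ))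
  obtain ⟨X₁, hX₁⟩ := eventually_atTop.mp h3
  refine ⟨X₁, fun X hX => ?_⟩
  obtain ⟨h4, h5⟩ := hX₁ X hX
  refine le_of_eq_of_le ?_ h4.le
  have e1 : X ^ (9 / 20 : ℝ) * X ^ (1 / 2 : ℝ) / X ^ (24 / 25 : ℝ) = X ^ (-(1 / 100 : ℝ)) := by
    rw [← Real.rpow_add h5, ← Real.rpow_sub h5]
    norm_num
  have e2 : X ^ (9 / 20 : ℝ) / X ^ (24 / 25 : ℝ) = X ^ (-(51 / 100 : ℝ)) := by
    rw [← Real.rpow_sub h5]
    norm_num
  have e3 : Real.log X / X ^ (1 / 100 : ℝ) = Real.log X * X ^ (-(1 / 100 : ℝ)) := by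
    rw [Real.rpow_neg h5.le, div_eq_mul_inv]
  rw [e3, ← e1, ← e2, Real.sqrt_eq_rpow]
  ring

theorem hm (h : StatementBE2) : StatementHM := by
  obtain ⟨C, hC, hbe⟩ := h
  obtain ⟨X₁, hX₁⟩ := threshold (C := C)
  refine ⟨8 * 21, max X₁ 40000, by norm_num, ?_⟩
  intro X M hX hXM hMX S hS hsep hcard a ha
  have hX1 : X₁ ≤ X := (le_max_left _ _).trans hX
  have hX2 : 40000 ≤ X := (le_max_right _ _).trans hX
  have hX0 : 0 < X := by linarith
  have hsq : 200 ≤ Real.sqrt X := by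
    rw [show (200 : ℝ) = Real.sqrt (200 ^ 2) by rw [Real.sqrt_sq (by norm_num)]]
    exact Real.sqrt_le_sqrt (by linarith)
  have hM : 200 ≤ M := by
    refine hsq.trans (le_trans ?_ hXM)
    rw [Real.sqrt_eq_rpow]
    exact Real.rpow_le_rpow_of_exponent_le (by linarith) (by norm_num)
  have hM0 : 0 < M := by linarith
  have he1 : Real.exp 1 < 2.7182818286 := Real.exp_one_lt_d9
  have he2 : 2.7182818283 < Real.exp 1 := Real.exp_one_gt_d9
  have he3 : Real.exp 3 = Real.exp 1 ^ 3 := by rw [← Real.exp_nat_mul]; norm_num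
  have hexp3 : Real.exp 3 < 20.1 := by
    rw [he3]
    have : Real.exp 1 ^ 3 < 2.7182818286 ^ 3 := by gcongr
    norm_num at this ⊢
    linarith
  set ε : ℝ := (225 * C * (4 + Real.log X) * Real.sqrt X + 50) / X ^ (24 / 25 : ℝ) with hε
  have hlogX : 0 ≤ Real.log X := Real.log_nonneg (by linarith)
  have hε0 : 0 ≤ ε := by positivity
  have hεc : ε * S.card ≤ 1 := by
    calc ε * S.card ≤ ε * X ^ (9 / 20 : ℝ) := by gcongr
      _ = X ^ (9 / 20 : ℝ) * ε := mul_comm _ _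
      _ ≤ 1 := hX₁ X hX1
  apply duality S _ a ha 8 21 (by norm_num) (sum_window hM)
  intro c
  have key := dual_bound S hsep c M ε _ (Finset.Icc ⌈M / Real.exp 1⌉₊ ⌊M * Real.exp 1⌋₊)
    (fun v => Finset.Ioc ⌊M * Real.exp (v - 3)⌋₊ ⌊M * Real.exp (v + 1)⌋₊) rfl ?_
  · refine key.trans ?_
    have hT : 0 ≤ ∑ t ∈ S, ‖c t‖ ^ 2 := Finset.sum_nonneg (fun _ _ => by positivity)
    nlinarith
  intro v hv
  set A := M * Real.exp (v - 3) with hA
  set B := M * Real.exp (v + 1) with hB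
  have hA1 : M / 20.1 ≤ A := by
    have h1 : Real.exp (-3) ≤ Real.exp (v - 3) := Real.exp_le_exp.mpr (by linarith [hv.1])
    have h2 : (1 : ℝ) / 20.1 ≤ Real.exp (-3) := by
      rw [Real.exp_neg, ← one_div]
      exact one_div_le_one_div_of_le (Real.exp_pos 3) hexp3.le
    rw [hA, div_eq_mul_one_div]
    exact mul_le_mul_of_nonneg_left (h2.trans h1) hM0.le
  have hAM : A ≤ M := by
    have h1 : Real.exp (v - 3) ≤ 1 := Real.exp_le_one_iff.mpr (by linarith [hv.2])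
    rw [hA]
    nlinarith
  have hAB : A ≤ B := by
    rw [hA, hB]
    have : Real.exp (v - 3) ≤ Real.exp (v + 1) := Real.exp_le_exp.mpr (by linarith)
    gcongr
  have hA1' : 1 ≤ A := by
    refine le_trans ?_ hA1
    rw [le_div_iff₀ (by norm_num)]
    linarith
  have hBA : B = A * Real.exp 1 ^ 4 := by
    rw [hA, hB, ← Real.exp_nat_mul, mul_assoc, ← Real.exp_add]
    congr 2
    push_cast
    ring
  have he4 : Real.exp 1 ^ 4 ≤ 55 := by
    have : Real.exp 1 ^ 4 ≤ 2.7182818286 ^ 4 := by gcongr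
    norm_num at this ⊢
    linarith
  have hB8 : B ≤ 8 * X := by
    have h1 : Real.exp (v + 1) ≤ Real.exp 1 ^ 2 := by
      rw [← Real.exp_nat_mul]
      exact Real.exp_le_exp.mpr (by push_cast; linarith [hv.2])
    have h2 : Real.exp 1 ^ 2 ≤ 8 := by nlinarith
    rw [hB]
    nlinarith
  set na := ⌊A⌋₊ with hna
  set nb := ⌊B⌋₊ with hnb
  have hna1 : (na : ℝ) ≤ A := Nat.floor_le (by linarith)
  have hna2 : A < na + 1 := Nat.lt_floor_add_one A
  have hnaM : M / 25 ≤ na := by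
    have : M / 20.1 < na + 1 := lt_of_le_of_lt hA1 hna2
    have h3 : M / 20.1 = M * (10 / 201) := by ring
    rw [h3] at this
    linarith
  have hnb1 : (nb : ℝ) ≤ B := Nat.floor_le (by linarith)
  have hnab : na ≤ nb := Nat.floor_mono hAB
  have hna0 : 1 ≤ na := Nat.floor_pos.mpr hA1'
  have hnaR : (1 : ℝ) ≤ na := by exact_mod_cast hna0
  have hnb64 : nb ≤ 4 ^ 3 * na := by
    have h1 : (nb : ℝ) ≤ 64 * na := by
      calc (nb : ℝ) ≤ B := hnb1
        _ ≤ A * 55 := by rw [hBA]; gcongr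
        _ ≤ (na + 1) * 55 := by gcongr
        _ ≤ 64 * na := by
          have : (7 : ℝ) ≤ na := le_trans (by linarith) hnaM
          linarith
    have h2 : (nb : ℝ) ≤ ((64 * na : ℕ) : ℝ) := by push_cast; exact h1
    have h3 : nb ≤ 64 * na := by exact_mod_cast h2
    norm_num
    exact h3
  refine ⟨?_, ?_, ?_⟩
  · intro n hn
    rw [Finset.mem_Icc] at hn
    rw [Finset.mem_Ioc]
    constructor
    · have h2 : M / Real.exp 1 ≤ n := (Nat.le_ceil _).trans (by exact_mod_cast hn.1)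
      have h3 : A < M / Real.exp 1 := by
        rw [hA, div_eq_mul_inv, ← Real.exp_neg]
        have : Real.exp (v - 3) < Real.exp (-1) := Real.exp_lt_exp.mpr (by linarith [hv.2])
        gcongr
      have h4 : (na : ℝ) < n := by linarith
      exact_mod_cast h4
    · refine hn.2.trans (Nat.floor_mono ?_)
      rw [hB]
      have : Real.exp 1 ≤ Real.exp (v + 1) := Real.exp_le_exp.mpr (by linarith [hv.1])
      gcongr
  · intro n hn
    rw [Finset.mem_Ioc] at hn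
    omega
  · intro t ht s hs
    have hτ : |t - s| ≤ 4 * X := by
      have h1 := hS t ht
      have h2 := hS s hs
      calc |t - s| ≤ |t| + |s| := abs_sub _ _
        _ ≤ 4 * X := by linarith
    have h1 := blocks hC hbe (t - s) 3 na nb hna0 hnab hnb64
    have h2 := floor_int hA1' hAB (t - s)
    rw [main_int hM0 v (t - s)] at h2
    have h3 : ‖∑ n ∈ Finset.Ioc na nb, ((n : ℝ) : ℂ) ^ (-(1 : ℂ) - ((t - s : ℝ) : ℂ) * Complex.I)
        - Ker M (t - s) * Complex.exp (-((v * (t - s) : ℝ) : ℂ) * Complex.I)‖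
        ≤ (3 : ℕ) * (C * (1 + Real.log nb) * (Real.sqrt na + Real.sqrt |t - s|) / na)
          + 2 / na := by
      refine le_trans (le_of_eq ?_) ((norm_add_le _ _).trans (add_le_add h1 h2))
      congr 1
      ring
    refine h3.trans ?_
    have h4 : Real.log nb ≤ 3 + Real.log X := by
      have h5 : (0 : ℝ) < nb := by
        have : (na : ℝ) ≤ nb := by exact_mod_cast hnab
        linarith
      calc Real.log nb ≤ Real.log (8 * X) := Real.log_le_log h5 (hnb1.trans hB8)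
        _ = Real.log 8 + Real.log X := Real.log_mul (by norm_num) hX0.ne'
        _ ≤ 3 + Real.log X := by
          have : Real.log 8 ≤ 3 := by
            rw [show (8 : ℝ) = 2 ^ 3 by norm_num, Real.log_pow]
            have := Real.log_two_lt_d9
            push_cast
            linarith
          linarith
    have h6 : Real.sqrt na ≤ Real.sqrt X :=
      Real.sqrt_le_sqrt (hna1.trans (hAM.trans hMX))
    have h7 : Real.sqrt |t - s| ≤ 2 * Real.sqrt X := by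
      calc Real.sqrt |t - s| ≤ Real.sqrt (4 * X) := Real.sqrt_le_sqrt hτ
        _ = 2 * Real.sqrt X := by
          rw [Real.sqrt_mul (by norm_num), show (4 : ℝ) = 2 ^ 2 by norm_num,
            Real.sqrt_sq (by norm_num)]
    have hXr : 0 < X ^ (24 / 25 : ℝ) := Real.rpow_pos_of_pos hX0 _
    have h8 : X ^ (24 / 25 : ℝ) / 25 ≤ na := le_trans (by linarith) hnaM
    have hlnb : 0 ≤ Real.log nb := Real.log_natCast_nonneg nb
    calc (3 : ℕ) * (C * (1 + Real.log nb) * (Real.sqrt na + Real.sqrt |t - s|) / na) + 2 / na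
        ≤ (3 : ℕ) * (C * (1 + (3 + Real.log X)) * (Real.sqrt X + 2 * Real.sqrt X)
          / (X ^ (24 / 25 : ℝ) / 25)) + 2 / (X ^ (24 / 25 : ℝ) / 25) := by
          gcongr
      _ = ε := by
          rw [hε]
          push_cast
          field_simp
          ring

end Pool.Agent.H82.MR
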